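import Pool.Agent.T63.DD.Main
import Pool.Agent.Results.MP_8dbee4_ag.AlmostAllDegrees

/-!
# MP_8dbee4_ag: the degrees of curves on very general complete intersections with ARBITRARY degrees in an interval

Let `X ⊆ ℙ^(n+r)` be a very general complete intersection of `r` hypersurfaces of degrees `d_1, …, d_r`,
`dim X = n`. The question is whether `d_1 ⋯ d_r` divides the degrees of all curves on `X` if all `d_i` are large.
The starting result `AlmostAllDegrees` gives a large common divisor `Q` of the degrees of the curves for almost all
degree tuples. Here there are no exceptions: only the distribution of the degrees enters, in a very weak form.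

**Theorem.** There is an absolute constant `K` with the following property. Let all `d_i` be in an interval `(A, A + N]`
(at any place, so the degrees can be arbitrarily large), let no integer occur more than `M` times among them, and let
`r log N ≥ K M N log (2 n)`. Then the degrees of all curves on `X` are divisible by an integer
`Q ≥ exp (r ^ 2 log N / (K n M N))`.

For instance let the degrees be distinct integers of an interval of length `N ≤ C r`, an arbitrary subset of positive
density. Then `Q ≥ N ^ (r / (K C n))` as soon as `r` is large in terms of `n` and `C`; if the `d_i` are at most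
`N ^ b`, this is at least `(d_1 ⋯ d_r) ^ (1 / (K C b n))`, a fixed power of the conjectured divisor. (If `A ≤ N`, more
can be said directly, as then all prime factors of the degrees are small; the point are intervals of length `N` which
are far out.) The range of `r` is best possible up to the constant for results of this kind: the degrees can be about
`N / log N` distinct primes, so that no prime number divides two of the degrees. The size of `Q` is best possible up
to the constant, too, for distinct degrees: for `r = N / C` all degrees can be without prime factors between
`N ^ (1 / C')` and `N`, `C'` a constant times `C`, so that the primes up to `N` contribute only `N ^ (r / C')` to their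
product.

Proof. By the starting result `AllPrimes` it is sufficient that `p ^ (n v_p(Q))` divides `d_1 ⋯ d_r` for all `p ∣ Q`,
if all prime factors of `Q` are larger than `n`. By the Selberg sieve (`Agent/T63/DD/Sieve.lean`, with the sharp
dependence on `z`) at most `K N log z / log N` integers in an interval of length `N` have no prime factor in
`(z, N ^ (1 / 8)]`; with `log z` equal to a constant times `r log N / (M N)` these are at most half of the degrees, and
the other ones contribute to the product of the `p ^ (w_p / n)`, `w_p` the number of the degrees divisible by `p`,
`z < p ≤ N ^ (1 / 8)`.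
-/

set_option autoImplicit false

namespace Pool.Agent.Results.MP_8dbee4_ag.ArbitraryDegrees

open Pool.Agent.Results.MP_8dbee4_ag.AlmostAllDegrees (DividesCurveDegrees)

/-- **Curves on complete intersections with arbitrary degrees in an interval.** There is an absolute constant `K`: if
the degrees `d_1, …, d_r` are in an interval `(A, A + N]`, no integer occurs more than `M` times among them, and
`K M N log (2 n) ≤ r log N`, then some integer `Q ≥ exp (r ^ 2 log N / (K n M N))` divides the degrees of all curves on
a very general complete intersection of degrees `d_1, …, d_r` in `ℙ^(n+r)`. -/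
theorem result : ∃ K : ℝ, 1 ≤ K ∧ ∀ n r M N A : ℕ, 1 ≤ n → 1 ≤ M → 2 ≤ N → ∀ d : Fin r → ℕ,
    (∀ i, A < d i ∧ d i ≤ A + N) → (∀ a, (Finset.univ.filter fun i => d i = a).card ≤ M) →
    K * M * N * Real.log (2 * n) ≤ r * Real.log N →
    ∃ Q : ℕ, Real.exp ((r : ℝ) ^ 2 * Real.log N / (K * n * M * N)) ≤ Q ∧ DividesCurveDegrees n r d Q := by
  obtain ⟨K, hK, h⟩ := Pool.Agent.T63.DD.exists_Q
  refine ⟨K, hK, fun n r M N A hn hM hN d hd hmult hcond => ?_⟩
  obtain ⟨Q, hQ0, hQ1, hQ2⟩ := h n r M N A hn hM hN d hd hmult hcond
  refine ⟨Q, hQ1, ?_⟩
  obtain ⟨bad, hbad, hmain⟩ := Pool.Agent.Results.MP_8dbee4_ag.AllPrimes.result n r hn d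
  refine ⟨bad, hbad, fun f hf hfb I hI hfI => ?_⟩
  refine hmain f hf hfb I hI.1 hI.2.1 hI.2.2 hfI 2 Q le_rfl hQ0 (fun p hp _ => hp.two_le) (Or.inl fun p hp hpQ => ?_)
  obtain ⟨h1, h2⟩ := hQ2 p hp hpQ
  have h3 : (n - 1) / (p - 1) = 0 := Nat.div_eq_of_lt (by omega)
  have h4 : Nat.log p n = 0 := Nat.log_eq_zero_iff.2 (Or.inl h1)
  rw [h3, h4, add_zero, zero_mul, add_zero]
  exact h2

end Pool.Agent.Results.MP_8dbee4_ag.ArbitraryDegrees
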