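import Mathlib
import Pool.Agent.Helper14C.Main1
import Pool.Agent.Helper14C.Num

set_option autoImplicit false

namespace Pool.Agent.Results.MP_8dbee4_ag.BoundedFactor

/-- the constant: `(n+r)! ^ r * (n+r-1)! * ∏_{p ≤ n prime} p ^ ⌊(n-1)/(p-1)⌋` -/
def M (n r : ℕ) : ℕ :=
  (n + r).factorial ^ r * (n + r - 1).factorial *
    ∏ p ∈ (Finset.range (n + 1)).filter Nat.Prime, p ^ ((n - 1) / (p - 1))

/-- **The divisibility `d_1 ⋯ d_r ∣ deg C` up to a constant depending only on `(n, r)`.**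
Let `d_1, …, d_r > 0` be arbitrary multiples of `(n+r)!`. On a very general complete intersection of
degrees `d_1, …, d_r` in `P^(n+r)` over `ℂ` (off countably many proper closed subsets, the `bad j`, of
the parameter space) every integral curve `C` (homogeneous prime `I` with `dim ℂ[x]/I = 2`; its degree
is the eventual value of the difference of the Hilbert function) satisfies
`d_1 ⋯ d_r ∣ M n r * deg C`. -/
theorem result (n r : ℕ) (hn : 0 < n) (d : Fin r → ℕ) (hd0 : ∀ i, 0 < d i)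
    (hd : ∀ i, (n + r).factorial ∣ d i) :
    ∃ bad : ℕ → MvPolynomial (Σ i : Fin r, {μ : Fin (n + r + 1) →₀ ℕ // μ.degree = d i}) ℂ,
      (∀ j, bad j ≠ 0) ∧
      ∀ f : Fin r → MvPolynomial (Fin (n + r + 1)) ℂ,
        (∀ i, f i ∈ MvPolynomial.homogeneousSubmodule (Fin (n + r + 1)) ℂ (d i)) →
        (∀ j, MvPolynomial.eval (fun x => MvPolynomial.coeff x.2.1 (f x.1)) (bad j) ≠ 0) →
        ∀ I : Ideal (MvPolynomial (Fin (n + r + 1)) ℂ),
          (∀ p ∈ I, ∀ k : ℕ, MvPolynomial.homogeneousComponent k p ∈ I) →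
          I.IsPrime →
          ringKrullDim (MvPolynomial (Fin (n + r + 1)) ℂ ⧸ I) = 2 →
          (∀ i, f i ∈ I) →
            ∃ K : ℕ, ∀ k : ℕ, K ≤ k →
              ((∏ i, d i : ℕ) : ℤ) ∣ (M n r : ℤ) *
                ((Module.finrank ℂ (Submodule.map (Ideal.Quotient.mkₐ ℂ I).toLinearMap
                    (MvPolynomial.homogeneousSubmodule (Fin (n + r + 1)) ℂ (k + 1))) : ℤ) -
                (Module.finrank ℂ (Submodule.map (Ideal.Quotient.mkₐ ℂ I).toLinearMap
                    (MvPolynomial.homogeneousSubmodule (Fin (n + r + 1)) ℂ k)) : ℤ)) := by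
  choose m hm using hd
  have hm0 : ∀ i, 0 < m i := fun i => Nat.pos_of_ne_zero fun h => by
    have h1 := hd0 i
    rw [hm i, h, mul_zero] at h1
    exact lt_irrefl _ h1
  obtain ⟨bad, hbad, h⟩ := Pool.Agent.Helper14C.main1 (n + r) r m hm0
    (∏ p ∈ (Finset.range (n + 1)).filter Nat.Prime, p ^ ((n - 1) / (p - 1)))
    (fun e he hs => Pool.Agent.Helper14C.prod_dvd n hn e he hs) d hm
  refine ⟨bad, hbad, fun f hf hfb I hI hIp hdim hfI => ?_⟩
  obtain ⟨K, hK⟩ := h f hf hfb I hI hIp hdim hfI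
  refine ⟨K, fun k hk => ?_⟩
  have h1 := hK k hk
  have h2 : (∏ i, d i) = (n + r).factorial ^ r * ∏ i, m i := by
    rw [Finset.prod_congr rfl (fun i _ => hm i), Finset.prod_mul_distrib]
    simp
  rw [h2, M, mul_assoc ((n + r).factorial ^ r), Nat.cast_mul,
    Nat.cast_mul ((n + r).factorial ^ r) ((n + r - 1).factorial * _), mul_assoc]
  exact mul_dvd_mul_left _ h1

end Pool.Agent.Results.MP_8dbee4_ag.BoundedFactor
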