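import Mathlib
import Pool.Agent.Helper14D.Final

set_option autoImplicit false

namespace Pool.Agent.Results.MP_8dbee4_ag.DensityOne

/-- `p` divides at most one of the `Q_i`, and `a0 * q ≤ d_i` for this `i`, where
`q = p ^ v_p(Q_i)` is the exact power of `p` dividing `Q_i`. -/
def Unshared (a0 : ℕ) {r : ℕ} (d Q : Fin r → ℕ) (p : ℕ) : Prop :=
  (∀ i j, p ∣ Q i → p ∣ Q j → i = j) ∧ ∀ i, p ∣ Q i → a0 * p ^ (Q i).factorization p ≤ d i

/-- `N! * q ∣ d_i` or `(N!) ^ 2 * q ^ (N - 1) ≤ d_i` for all `i` with `p ∣ Q_i`, where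
`q = p ^ v_p(Q_i)` is the exact power of `p` dividing `Q_i`. -/
def Small (N : ℕ) {r : ℕ} (d Q : Fin r → ℕ) (p : ℕ) : Prop :=
  ∀ i, p ∣ Q i → (N.factorial * p ^ (Q i).factorization p ∣ d i ∨
    N.factorial ^ 2 * (p ^ (Q i).factorization p) ^ (N - 1) ≤ d i)

/-- The divisors `Q_i` of `d_i` are *admissible*, if every prime number `p` is `Small`, or greater
than `a0` and `Unshared`. -/
def Admissible (N a0 : ℕ) {r : ℕ} (d Q : Fin r → ℕ) : Prop :=
  ∀ p : ℕ, p.Prime → (a0 < p ∧ Unshared a0 d Q p) ∨ Small N d Q p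

/-- The divisors `Q_i` of `d_i` are *weakly admissible*, if every prime number `p` is `Small` or
`Unshared`. -/
def WeaklyAdmissible (N a0 : ℕ) {r : ℕ} (d Q : Fin r → ℕ) : Prop :=
  ∀ p : ℕ, p.Prime → Unshared a0 d Q p ∨ Small N d Q p

/-- **Density one.** Let `n ≥ 1`, `r ≥ 0`, `N = n + r`. There are constants `M, a0 > 0`, depending
only on `n` and `r`, such that
(1) the degree tuples `d = (d_1, …, d_r)` which are not admissible (for `Q = d`) have density zero;
(2) `Q = d` is weakly admissible, if the `d_i` are pairwise coprime (for instance `r = 1`) and none of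
them is a prime power times an integer less than `a0`;
(3) on a very general complete intersection of degrees `d_1, …, d_r > 0` in `P^N` over `ℂ` (off
countably many proper closed subsets, the `bad j`, of the parameter space) every integral curve `C`
(homogeneous prime `I` with `dim ℂ[x]/I = 2`; its degree is the eventual value of the difference of
the Hilbert function) satisfies, for all divisors `Q_i` of `d_i`:
* `Q_1 ⋯ Q_r ∣ (N!) ^ (4 r + 1) * deg C` if the `Q_i` are admissible, and `Q_1 ⋯ Q_r ∣ deg C` if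
  moreover all `Q_i` are prime to `N!`;
* `Q_1 ⋯ Q_r ∣ M * deg C` if the `Q_i` are weakly admissible.

In particular (`Q = d`): `d_1 ⋯ d_r ∣ (N!) ^ (4 r + 1) * deg C` for all tuples outside a set of
density zero; `d_1 ⋯ d_r ∣ deg C` for all tuples of integers prime to `N!` outside a set of density
zero; and for hypersurfaces, `r = 1`, `d ∣ M * deg C` for all `d` which are not a prime power times
an integer less than `a0`. -/
theorem result (n r : ℕ) (hn : 0 < n) : ∃ M a0 : ℕ, 0 < M ∧ 0 < a0 ∧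
    Filter.Tendsto (fun X : ℕ => ((Set.ncard {d : Fin r → ℕ | (∀ i, 0 < d i ∧ d i ≤ X) ∧
      ¬ Admissible (n + r) a0 d d} : ℕ) : ℝ) / (X : ℝ) ^ r) Filter.atTop (nhds 0) ∧
    (∀ d : Fin r → ℕ, (∀ i j, i ≠ j → (d i).Coprime (d j)) →
      (∀ i p k c, p.Prime → d i = p ^ k * c → a0 ≤ c) → WeaklyAdmissible (n + r) a0 d d) ∧
    ∀ d : Fin r → ℕ, (∀ i, 0 < d i) →
    ∃ bad : ℕ → MvPolynomial (Σ i : Fin r, {μ : Fin (n + r + 1) →₀ ℕ // μ.degree = d i}) ℂ,
      (∀ j, bad j ≠ 0) ∧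
      ∀ f : Fin r → MvPolynomial (Fin (n + r + 1)) ℂ,
        (∀ i, f i ∈ MvPolynomial.homogeneousSubmodule (Fin (n + r + 1)) ℂ (d i)) →
        (∀ j, MvPolynomial.eval (fun x => MvPolynomial.coeff x.2.1 (f x.1)) (bad j) ≠ 0) →
        ∀ I : Ideal (MvPolynomial (Fin (n + r + 1)) ℂ),
          (∀ p ∈ I, ∀ k : ℕ, MvPolynomial.homogeneousComponent k p ∈ I) →
          I.IsPrime →
          ringKrullDim (MvPolynomial (Fin (n + r + 1)) ℂ ⧸ I) = 2 →
          (∀ i, f i ∈ I) →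
          ∀ Q : Fin r → ℕ, (∀ i, Q i ∣ d i) →
            ∃ K : ℕ, ∀ k : ℕ, K ≤ k → ∀ δ : ℤ,
              δ = (Module.finrank ℂ (Submodule.map (Ideal.Quotient.mkₐ ℂ I).toLinearMap
                    (MvPolynomial.homogeneousSubmodule (Fin (n + r + 1)) ℂ (k + 1))) : ℤ) -
                (Module.finrank ℂ (Submodule.map (Ideal.Quotient.mkₐ ℂ I).toLinearMap
                    (MvPolynomial.homogeneousSubmodule (Fin (n + r + 1)) ℂ k)) : ℤ) →
              (Admissible (n + r) a0 d Q →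
                ((∏ i, Q i : ℕ) : ℤ) ∣ (((n + r).factorial ^ (4 * r + 1) : ℕ) : ℤ) * δ ∧
                ((∀ i, (Q i).Coprime (n + r).factorial) → ((∏ i, Q i : ℕ) : ℤ) ∣ δ)) ∧
              (WeaklyAdmissible (n + r) a0 d Q → ((∏ i, Q i : ℕ) : ℤ) ∣ (M : ℤ) * δ) := by
  classical
  obtain ⟨M, a0, hM, ha0, h⟩ := Pool.Agent.Helper14D.comb (n + r) (by omega)
  refine ⟨M * (n + r).factorial ^ (4 * r + 1), a0,
    Nat.mul_pos hM (pow_pos (Nat.factorial_pos _) _), ha0, ?_, ?_, fun d hd => ?_⟩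
  · have e : ∀ d : Fin r → ℕ, Admissible (n + r) a0 d d ↔ Pool.Agent.Helper14D.Adm (n + r) a0 d d := by
      intro d
      exact Iff.rfl
    simp only [e]
    exact Pool.Agent.Helper14D.dens (n + r) a0 r
  · intro d hcop hd p hp
    left
    refine ⟨fun i j hi hj => ?_, fun i _ => ?_⟩
    · by_contra hij
      exact hp.one_lt.ne' (Nat.dvd_one.mp ((hcop i j hij) ▸ Nat.dvd_gcd hi hj))
    · obtain ⟨c, hc⟩ := Nat.ordProj_dvd (d i) p
      calc a0 * p ^ (d i).factorization p ≤ c * p ^ (d i).factorization p :=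
            Nat.mul_le_mul_right _ (hd i p _ c hp hc)
        _ = d i := by rw [mul_comm]; exact hc.symm
  obtain ⟨bad, hbad, hmain⟩ := h r d hd
  refine ⟨bad, hbad, fun f hf hfb I hI hIp hdim hfI Q hQd => ?_⟩
  obtain ⟨h1, h2⟩ := hmain f hf hfb I hI hIp hdim hfI Q hQd
  have h1' : ∃ K : ℕ, ∀ k : ℕ, K ≤ k → Admissible (n + r) a0 d Q →
      ((∏ i, Q i : ℕ) : ℤ) ∣ (((n + r).factorial ^ (4 * r + 1) : ℕ) : ℤ) *
        Pool.Agent.Helper14D.Dl I k := by
    by_cases hA : Admissible (n + r) a0 d Q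
    · obtain ⟨K, hK⟩ := h1 hA
      exact ⟨K, fun k hk _ => hK k hk⟩
    · exact ⟨0, fun k _ hA' => absurd hA' hA⟩
  have h2' : ∃ K : ℕ, ∀ k : ℕ, K ≤ k → WeaklyAdmissible (n + r) a0 d Q →
      ((∏ i, Q i : ℕ) : ℤ) ∣ ((M * (n + r).factorial ^ (4 * r + 1) : ℕ) : ℤ) *
        Pool.Agent.Helper14D.Dl I k := by
    by_cases hA : WeaklyAdmissible (n + r) a0 d Q
    · obtain ⟨K, hK⟩ := h2 hA
      exact ⟨K, fun k hk _ => hK k hk⟩
    · exact ⟨0, fun k _ hA' => absurd hA' hA⟩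
  obtain ⟨K1, hK1⟩ := h1'
  obtain ⟨K2, hK2⟩ := h2'
  refine ⟨max K1 K2, fun k hk δ hδ => ?_⟩
  subst hδ
  refine ⟨fun hA => ?_, fun hA => hK2 k ((le_max_right _ _).trans hk) hA⟩
  have h3 := hK1 k ((le_max_left _ _).trans hk) hA
  refine ⟨h3, fun hcop => ?_⟩
  have hcop2 : IsCoprime ((∏ i, Q i : ℕ) : ℤ) (((n + r).factorial ^ (4 * r + 1) : ℕ) : ℤ) := by
    rw [Nat.isCoprime_iff_coprime]
    exact Nat.Coprime.pow_right _ (Nat.Coprime.prod_left fun i _ => hcop i)
  exact hcop2.dvd_of_dvd_mul_left h3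

end Pool.Agent.Results.MP_8dbee4_ag.DensityOne
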