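import Pool.Agent.T63.DD.Poly
import Pool.Agent.Results.MP_8dbee4_ag.AlmostAllDegrees

/-!
# MP_8dbee4_ag: curves on very general complete intersections whose degrees are the values of a polynomial

Let `X ⊆ ℙ^(n+r)` be a very general complete intersection of `r` hypersurfaces of degrees `d_1, …, d_r`,
`dim X = n`. The question is whether `d_1 ⋯ d_r` divides the degrees of all curves on `X` if all `d_i` are large.

**Theorem.** Let `f = f_1 ⋯ f_g` be a product of `g` irreducible polynomials over `ℤ` of positive degree (not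
necessarily different) and `ε > 0`. There are `δ > 0` and `r₀` such that for all `r ≥ r₀`, all `1 ≤ n ≤ r ^ δ`, all
integers `A` and all degrees `d_0, …, d_(r-1)` with `f(A + i) ∣ d_i` (for instance `d_i = c f(A + i)`) the degrees of
all curves on `X` are divisible by an integer `Q ≥ r ^ ((g - ε) r / n)`.

If `f` has degree `D`, `A` is at most a power `r ^ a`, `a ≥ 1`, and `d_i = |f(A + i)|`, then `d_1 ⋯ d_r` is at most
about `r ^ (a D r)`, and `Q` is at least `(d_1 ⋯ d_r) ^ ((g / D - ε') / (a n))`. For instance for the degrees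
`1 ^ 2 + 1, …, r ^ 2 + 1` the degrees of all curves are divisible by an integer
`≥ (d_1 ⋯ d_r) ^ (1 / (2 n) - ε')`, and for the degrees `i (i + 1) ⋯ (i + k)` by one
`≥ (d_1 ⋯ d_r) ^ (1 / n - ε')`; the exponent `1 / n` is that of Kollár's theorem for one hypersurface (`Q ^ n ∣ d`
implies `Q ∣ deg C`).

Proof. By the starting result `AllPrimes` it is sufficient that `p ^ (n v_p(Q))` divides `d_1 ⋯ d_r` for all `p ∣ Q`,
if all prime factors of `Q` are larger than `n`. A prime `p ≤ r ^ (1 - η)` divides at least `ρ_j(p) ⌊r / p⌋` of the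
numbers `f_j(A + i)`, `ρ_j(p)` the number of the roots of `f_j` modulo `p`, and by the prime ideal theorem (starting
repository) `∑_{p ≤ y} ρ_j(p) log p / p ≥ (1 - η) log y - O(1)` for each `j` (`Agent/T63/DD/Mert.lean`).
-/

set_option autoImplicit false

namespace Pool.Agent.Results.MP_8dbee4_ag.PolynomialDegrees

open Polynomial
open Pool.Agent.Results.MP_8dbee4_ag.AlmostAllDegrees (DividesCurveDegrees)

/-- **Curves on complete intersections with degrees in polynomial sequences.** Let `F_1, …, F_g` be irreducible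
polynomials over `ℤ` of positive degree, and `ε > 0`. There are `δ > 0` and `r₀` such that for all `r ≥ r₀`,
`1 ≤ n ≤ r ^ δ`, all integers `A` and all degrees `d_0, …, d_(r-1)` such that `F_1(A + i) ⋯ F_g(A + i)` divides `d_i`, some
integer `Q ≥ r ^ ((g - ε) r / n)` divides the degrees of all curves on a very general complete intersection of these
degrees in `ℙ^(n+r)`. -/
theorem result (g : ℕ) (F : Fin g → ℤ[X]) (hF : ∀ j, Irreducible (F j)) (hF1 : ∀ j, 0 < (F j).natDegree)
    (ε : ℝ) (hε : 0 < ε) : ∃ δ : ℝ, 0 < δ ∧ ∃ r₀ : ℕ, ∀ r : ℕ, r₀ ≤ r → ∀ n : ℕ, 1 ≤ n → (n : ℝ) ≤ (r : ℝ) ^ δ →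
      ∀ (A : ℤ) (d : Fin r → ℕ), (∀ i : Fin r, (∏ j, (F j).eval (A + ((i : ℕ) : ℤ))) ∣ (d i : ℤ)) →
        ∃ Q : ℕ, (r : ℝ) ^ ((g - ε) * r / n) ≤ Q ∧ DividesCurveDegrees n r d Q := by
  obtain ⟨δ, hδ, r₀, h⟩ := Pool.Agent.T63.DD.exists_Q_poly g F hF hF1 ε hε
  refine ⟨δ, hδ, r₀, fun r hr n hn hnr A d hd => ?_⟩
  obtain ⟨Q, hQ0, hQ1, hQ2⟩ := h r hr n hn hnr A d hd
  refine ⟨Q, hQ1, ?_⟩
  obtain ⟨bad, hbad, hmain⟩ := Pool.Agent.Results.MP_8dbee4_ag.AllPrimes.result n r hn d
  refine ⟨bad, hbad, fun f hf hfb I hI hfI => ?_⟩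
  refine hmain f hf hfb I hI.1 hI.2.1 hI.2.2 hfI 2 Q le_rfl hQ0 (fun p hp _ => hp.two_le) (Or.inl fun p hp hpQ => ?_)
  obtain ⟨h1, h2⟩ := hQ2 p hp hpQ
  have h3 : (n - 1) / (p - 1) = 0 := Nat.div_eq_of_lt (by omega)
  have h4 : Nat.log p n = 0 := Nat.log_eq_zero_iff.2 (Or.inl h1)
  rw [h3, h4, add_zero, zero_mul, add_zero]
  exact h2

end Pool.Agent.Results.MP_8dbee4_ag.PolynomialDegrees
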